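import Mathlib
import Pool.Agent.Lib.MP_5deabe_nt.TestSet

/-!
# A small set of cyclic fields which decides the `p`-part of the Mazur-Tate conjecture

Let `E` be an elliptic curve over `ℚ` of rank `r`, `1 ≤ r < p`, and let `M` be subject to
(i)-(iii).  For all `n ≥ 1` and all primes `l ∣ M`, `l ≡ 1` modulo `p ^ n`, let
`χ n l : Gal(ℚ(ζ_l)⁺/ℚ) → ℤ/p ^ n` be a surjective homomorphism.  Then Q1 holds for all real
abelian fields `F ⊆ ℚ(ζ_M)⁺` if and only if it holds for `ℚ` and, for all `n ≥ 1`, for the cyclic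
fields of degree `p ^ n` which belong to the homomorphisms `∏ (χ n l) ^ (a l)`, where the `a l ≥ 0`
have the sum `r` and `a l = 0` unless `l ≡ 1` modulo `p ^ n`.  (In these fields at most `r` primes
ramify; their number is the binomial coefficient of `T + r - 1` and `r` if `T` of the primes are
`≡ 1` modulo `p ^ n`.)
-/

open MTate

namespace Pool.Agent.Lib.MP_5deabe_nt_Old.TestFields

theorem result {p : ℕ} [Fact p.Prime] {D : MTData} (hD : D.Valid p) (hr1 : 1 ≤ D.r)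
    (hr : D.r < p) {M : ℕ} (hM : D.Adm p M) (hI : D.Integral p M) (hP : D.Pairing p M)
    {χ : ∀ n l : ℕ, Gp l →* Cpn p n}
    (hχ : ∀ n, ∀ l ∈ M.primeFactors, p ^ n ∣ l - 1 → Function.Surjective (χ n l)) :
    (∀ m, m ∣ M → ∀ (G : Type) [CommGroup G] (f : Gp m →* G), IsField m f → D.Q1 p m f) ↔
    (∀ (G : Type) [CommGroup G] (f : Gp 1 →* G), IsField 1 f → D.Q1 p 1 f) ∧
    (∀ n, 1 ≤ n → ∀ a : ℕ → ℕ, (∀ l, a l ≠ 0 → l ∈ M.primeFactors ∧ p ^ n ∣ l - 1) →
      ∑ l ∈ M.primeFactors, a l = D.r → D.Q1At p M (chiProd (χ n) a)) :=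
  MTData.test_set hD hr1 hr hM hI hP hχ

end Pool.Agent.Lib.MP_5deabe_nt_Old.TestFields
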